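import Pool.Agent.helper52.HY.Spec

set_option autoImplicit false

open Complex Metric Set Filter Topology MeasureTheory
open Pool.Agent.helper98.ILF Pool.Agent.helper16.Multibrot

noncomputable section

namespace HY

theorem FIT : FIT_stmt := by
  intro n c φ l₀ y j i H hF q l hiq hql hlj x hx
  obtain ⟨d, rfl⟩ := Nat.exists_eq_add_of_le hql
  clear hql
  rw [Nat.add_sub_cancel_left]
  induction d with
  | zero => simp
  | succ d ih =>
    have h1 := ih (by omega)
    rw [Function.iterate_succ_apply', h1]
    exact (hF.rel (q + d) (by omega) (by omega) x hx).symm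

end HY
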